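import Mathlib
import Pool.Agent.X136.OProb

set_option autoImplicit false

open MeasureTheory
open scoped ENNReal

namespace Pool.Agent.Results.MP_38c1f8_pr.NoInvasion

/-! ### Definitions used in the statement -/

/-- The standard square lattice graph on `ℤ × ℤ`: two points are adjacent when their difference
is one of `(1, 0)`, `(-1, 0)`, `(0, 1)`, `(0, -1)`. -/
def squareLattice : SimpleGraph (ℤ × ℤ) where
  Adj a b := b - a = (1, 0) ∨ b - a = (-1, 0) ∨ b - a = (0, 1) ∨ b - a = (0, -1)
  symm := ⟨fun a b h => by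
    have e : a - b = -(b - a) := (neg_sub b a).symm
    rcases h with h | h | h | h
    · exact Or.inr (Or.inl (by rw [e, h]; rfl))
    · exact Or.inl (by rw [e, h]; rfl)
    · exact Or.inr (Or.inr (Or.inr (by rw [e, h]; rfl)))
    · exact Or.inr (Or.inr (Or.inl (by rw [e, h]; rfl)))⟩
  loopless := ⟨fun a h => by
    simp only [sub_self, Prod.ext_iff, Prod.fst_zero, Prod.snd_zero] at h
    omega⟩

/-- The graphs `G` and `H`, with their graph metrics, are quasi-isometric. -/
def QuasiIsometric {V W : Type*} (G : SimpleGraph V) (H : SimpleGraph W) : Prop :=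
  ∃ (f : V → W) (A B : ℝ), 1 ≤ A ∧ 0 ≤ B ∧
    (∀ x y, (1 / A) * (G.dist x y : ℝ) - B ≤ (H.dist (f x) (f y) : ℝ) ∧
      (H.dist (f x) (f y) : ℝ) ≤ A * (G.dist x y : ℝ) + B) ∧
    ∀ w, ∃ x, (H.dist w (f x) : ℝ) ≤ B

open Classical in
/-- The 2-neighbour contamination map: a vertex is infected afterwards when it was infected or
has at least two infected neighbours. -/
noncomputable def contaminate {V : Type*} (G : SimpleGraph V) (c : V → Bool) : V → Bool :=
  fun x => decide (c x = true ∨ ∃ y z, y ≠ z ∧ G.Adj x y ∧ G.Adj x z ∧ c y = true ∧ c z = true)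

/-- The invasion set: the configurations for which every vertex is eventually infected. -/
def invasionSet {V : Type*} (G : SimpleGraph V) : Set (V → Bool) :=
  {c | ∀ x, ∃ n : ℕ, (contaminate G)^[n] c x = true}

/-- A fortress: a finite nonempty set of vertices each of which has at most one neighbour outside
the set. -/
def IsFortress {V : Type*} (G : SimpleGraph V) (S : Set V) : Prop :=
  S.Finite ∧ S.Nonempty ∧
    ∀ x ∈ S, ∀ y z, G.Adj x y → G.Adj x z → y ∉ S → z ∉ S → y = z

/-- The Bernoulli product measure under which every vertex is `true` (infected) with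
probability `p ∈ [0, 1]`, independently of the others. -/
noncomputable def bernoulliProduct (V : Type*) (p : unitInterval) : Measure (V → Bool) :=
  Measure.infinitePi fun _ : V => ProbabilityTheory.bernoulliMeasure true false p

/-! ### The graph -/

/-- vertices: a block of `ℤ × ℤ`, a type (`0, 1, 2`) and a label -/
abbrev Vert : Type := (ℤ × ℤ) × Fin 3 × Bool

/-- the upward relation -/
def Up (x y : Vert) : Prop :=
  (x.2.1 = 0 ∧ y.2.1 = 1 ∧ y.1 = x.1) ∨ (x.2.1 = 1 ∧ y.2.1 = 2 ∧ y.1 = x.1) ∨
  (x.2.1 = 2 ∧ y.2.1 = 0 ∧ y.2.2 = x.2.2 ∧ (y.1 = x.1 + (1, 0) ∨ y.1 = x.1 + (0, 1)))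

/-- the level of a vertex -/
def level (x : Vert) : ℤ := 3 * (x.1.1 + x.1.2) + (x.2.1 : ℕ)

theorem Up.level {x y : Vert} (h : Up x y) : level y = level x + 1 := by
  unfold NoInvasion.level
  rcases h with ⟨h1, h2, h3⟩ | ⟨h1, h2, h3⟩ | ⟨h1, h2, _, h3 | h3⟩
  all_goals (rw [h1, h2, h3]; simp; try ring)

/-- the graph -/
def graph : SimpleGraph Vert where
  Adj x y := Up x y ∨ Up y x
  symm := ⟨fun _ _ h => h.symm⟩
  loopless := ⟨fun x h => by
    rcases h with h | h <;> (have := h.level; omega)⟩

/-- the two upper neighbours of `x` -/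
def ups (x : Vert) : Finset Vert :=
  if x.2.1 = 0 then {(x.1, 1, true), (x.1, 1, false)}
  else if x.2.1 = 1 then {(x.1, 2, true), (x.1, 2, false)}
  else {(x.1 + (1, 0), 0, x.2.2), (x.1 + (0, 1), 0, x.2.2)}

/-- the two lower neighbours of `x` -/
def downs (x : Vert) : Finset Vert :=
  if x.2.1 = 0 then {(x.1 - (1, 0), 2, x.2.2), (x.1 - (0, 1), 2, x.2.2)}
  else if x.2.1 = 1 then {(x.1, 0, true), (x.1, 0, false)}
  else {(x.1, 1, true), (x.1, 1, false)}

theorem mem_ups {x y : Vert} : y ∈ ups x ↔ Up x y := by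
  obtain ⟨z, t, b⟩ := x
  obtain ⟨z', t', b'⟩ := y
  unfold ups Up
  fin_cases t <;> fin_cases t' <;> cases b <;> cases b' <;> simp [Prod.ext_iff]

theorem mem_downs {x y : Vert} : y ∈ downs x ↔ Up y x := by
  obtain ⟨z, t, b⟩ := x
  obtain ⟨z', t', b'⟩ := y
  have e : ∀ a : ℤ × ℤ, z' = z - a ↔ z = z' + a := fun a => by
    rw [eq_sub_iff_add_eq, eq_comm]
  unfold downs Up
  fin_cases t <;> fin_cases t' <;> cases b <;> cases b' <;> simp [e, eq_comm]

theorem card_ups (x : Vert) : (ups x).card = 2 := by
  obtain ⟨z, t, b⟩ := x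
  unfold ups
  fin_cases t <;> simp

theorem card_downs (x : Vert) : (downs x).card = 2 := by
  obtain ⟨z, t, b⟩ := x
  unfold downs
  fin_cases t <;> simp

open Pool.Agent.X136.OP

/-! ### No infection of a doubly infinite healthy region -/

theorem stable {c : Vert → Bool} {T : Set (ℤ × ℤ)} (hT : ∀ z ∈ T, ∀ s, c (z, s) = false)
    (hup : ∀ z ∈ T, z + (1, 0) ∈ T ∨ z + (0, 1) ∈ T)
    (hdown : ∀ z ∈ T, z - (1, 0) ∈ T ∨ z - (0, 1) ∈ T) (n : ℕ) :
    ∀ x : Vert, x.1 ∈ T → (contaminate graph)^[n] c x = false := by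
  induction n with
  | zero => exact fun x hx => hT x.1 hx x.2
  | succ n ih =>
    intro x hx
    rw [Function.iterate_succ_apply']
    unfold contaminate
    rw [decide_eq_false_iff_not]
    rintro (h | ⟨y, z, hyz, hy, hz, cy, cz⟩)
    · have := ih x hx
      unfold contaminate at this
      rw [this] at h
      exact absurd h (by decide)
    · have hy' : y.1 ∉ T := fun h => by
        have h2 := ih y h
        unfold contaminate at h2
        rw [h2] at cy
        exact absurd cy (by decide)
      have hz' : z.1 ∉ T := fun h => by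
        have h2 := ih z h
        unfold contaminate at h2
        rw [h2] at cz
        exact absurd cz (by decide)
      obtain ⟨x1, t, b⟩ := x
      obtain ⟨y1, ty, by1⟩ := y
      obtain ⟨z1, tz, bz1⟩ := z
      simp only [graph, Up] at hy hz
      simp only at hx hy' hz'
      have hu := hup x1 hx
      have hd := hdown x1 hx
      have e : ∀ a b c : ℤ × ℤ, a = b + c ↔ b = a - c := fun a b c => by
        rw [eq_sub_iff_add_eq, eq_comm]
      fin_cases t
      · simp at hy hz
        rcases hy with ⟨-, rfl⟩ | ⟨rfl, rfl, hy⟩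
        · exact hy' hx
        rcases hz with ⟨-, rfl⟩ | ⟨rfl, rfl, hz⟩
        · exact hz' hx
        rw [e, e] at hy hz
        rcases hy with rfl | rfl <;> rcases hz with rfl | rfl
        · exact hyz rfl
        · exact hd.elim hy' hz'
        · exact hd.elim hz' hy'
        · exact hyz rfl
      · simp at hy hz
        rcases hy with ⟨-, rfl⟩ | ⟨-, rfl⟩ <;> exact hy' hx
      · simp at hy hz
        rcases hy with ⟨rfl, rfl, hy⟩ | ⟨-, rfl⟩
        · rcases hz with ⟨rfl, rfl, hz⟩ | ⟨-, rfl⟩
          · rcases hy with rfl | rfl <;> rcases hz with rfl | rfl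
            · exact hyz rfl
            · exact hu.elim hy' hz'
            · exact hu.elim hz' hy'
            · exact hyz rfl
          · exact hz' hx
        · exact hy' hx

/-- the healthy blocks -/
def healthy (c : Vert → Bool) : Set (ℤ × ℤ) := {z | ∀ s, c (z, s) = false}

/-- a backward oriented step to an open site -/
def R' (O : Set (ℤ × ℤ)) (a b : ℤ × ℤ) : Prop := (a = b + v 0 ∨ a = b + v 1) ∧ b ∈ O

theorem not_invaded {c : Vert → Bool} (h0 : ((0, 0) : ℤ × ℤ) ∈ healthy c)
    (hf : {w | Relation.ReflTransGen (R (healthy c)) (0, 0) w}.Infinite)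
    (hb : {w | Relation.ReflTransGen (R' (healthy c)) (0, 0) w}.Infinite) :
    c ∉ invasionSet graph := by
  set O := healthy c with hO
  let T : Set (ℤ × ℤ) := {z | z ∈ O ∧ {w | Relation.ReflTransGen (R O) z w}.Infinite ∧
    {w | Relation.ReflTransGen (R' O) z w}.Infinite}
  have hT0 : ((0, 0) : ℤ × ℤ) ∈ T := ⟨h0, hf, hb⟩
  have hT : ∀ z ∈ T, ∀ s, c (z, s) = false := fun z hz s => hz.1 s
  have hup : ∀ z ∈ T, z + (1, 0) ∈ T ∨ z + (0, 1) ∈ T := by
    intro z hz
    have hfin : {b | R O z b}.Finite := by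
      refine (Set.toFinite {z + v 0, z + v 1}).subset ?_
      rintro b ⟨h | h, -⟩
      · exact Or.inl h
      · exact Or.inr h
    obtain ⟨z', hz', hinf⟩ := exists_succ hfin hz.2.1
    have hz'T : z' ∈ T := by
      refine ⟨hz'.2, hinf, hz.2.2.mono ?_⟩
      intro w hw
      exact Relation.ReflTransGen.head ⟨hz'.1, hz.1⟩ hw
    rcases hz'.1 with h | h
    · left; rw [h] at hz'T; exact hz'T
    · right; rw [h] at hz'T; exact hz'T
  have hdown : ∀ z ∈ T, z - (1, 0) ∈ T ∨ z - (0, 1) ∈ T := by
    intro z hz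
    have hfin : {b | R' O z b}.Finite := by
      refine (Set.toFinite {z - v 0, z - v 1}).subset ?_
      rintro b ⟨h | h, -⟩
      · exact Or.inl (by rw [h]; abel)
      · exact Or.inr (by rw [h]; show b = b + v 1 - v 1; abel)
    obtain ⟨z', hz', hinf⟩ := exists_succ hfin hz.2.2
    have hz'T : z' ∈ T := by
      refine ⟨hz'.2, hz.2.1.mono ?_, hinf⟩
      intro w hw
      exact Relation.ReflTransGen.head ⟨hz'.1, hz.1⟩ hw
    rcases hz'.1 with h | h
    · left
      have e : z' = z - (1, 0) := by rw [h, v0]; abel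
      rw [e] at hz'T; exact hz'T
    · right
      have e : z' = z - (0, 1) := by rw [h, v1]; abel
      rw [e] at hz'T; exact hz'T
  intro hI
  obtain ⟨n, hn⟩ := hI ((0, 0), 0, true)
  have := stable hT hup hdown n ((0, 0), 0, true) hT0
  rw [this] at hn
  exact absurd hn (by decide)

/-! ### Probability -/

theorem measure_unhealthy_le (p : unitInterval) (F : Finset (ℤ × ℤ)) :
    bernoulliProduct Vert p {c | ∀ z ∈ F, z ∉ healthy c} ≤
      (6 * (ENNReal.ofReal (p : ℝ))) ^ F.card := by
  classical
  let E : (F → Fin 3 × Bool) → Set (Vert → Bool) := fun g =>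
    Set.pi (↑(F.attach.image fun z : F => ((z : ℤ × ℤ), g z)) : Set Vert) fun _ => {true}
  have hsub : {c | ∀ z ∈ F, z ∉ healthy c} ⊆ ⋃ g, E g := by
    intro c hc
    have h1 : ∀ z : F, ∃ s, c ((z : ℤ × ℤ), s) = true := by
      intro z
      have h2 := hc z z.2
      by_contra hcon
      push Not at hcon
      exact h2 fun s => by simpa using hcon s
    choose g hg using h1
    refine Set.mem_iUnion.2 ⟨g, ?_⟩
    intro x hx
    rw [Finset.mem_coe, Finset.mem_image] at hx
    obtain ⟨z, -, rfl⟩ := hx
    exact hg z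
  have hE : ∀ g, bernoulliProduct Vert p (E g) = (ENNReal.ofReal (p : ℝ)) ^ F.card := by
    intro g
    have hcard : (F.attach.image fun z : F => ((z : ℤ × ℤ), g z)).card = F.card := by
      rw [Finset.card_image_of_injective, Finset.card_attach]
      intro a b hab
      exact Subtype.ext (Prod.mk.inj hab).1
    unfold bernoulliProduct
    rw [Measure.infinitePi_pi _ fun i _ => measurableSet_singleton _]
    rw [Finset.prod_const, hcard]
    congr 1
    rw [ProbabilityTheory.bernoulliMeasure_def]
    simp only [Measure.add_apply, Measure.smul_apply, MeasurableSet.singleton,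
      Measure.dirac_apply', Set.indicator_apply, Set.mem_singleton_iff]
    simp only [if_true, Bool.false_eq_true, if_false, smul_zero, add_zero, Pi.one_apply,
      ENNReal.smul_def, smul_eq_mul, mul_one]
    exact (ENNReal.ofReal_eq_coe_nnreal p.2.1).symm
  calc bernoulliProduct Vert p {c | ∀ z ∈ F, z ∉ healthy c}
      ≤ bernoulliProduct Vert p (⋃ g, E g) := measure_mono hsub
    _ ≤ ∑ g : F → Fin 3 × Bool, bernoulliProduct Vert p (E g) := measure_iUnion_fintype_le _ _
    _ = (6 * (ENNReal.ofReal (p : ℝ))) ^ F.card := by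
        rw [Finset.sum_congr rfl fun g _ => hE g, Finset.sum_const, Finset.card_univ,
          Fintype.card_fun, Fintype.card_coe, Fintype.card_prod, Fintype.card_fin,
          Fintype.card_bool, nsmul_eq_mul]
        push_cast
        rw [← mul_pow]

theorem measure_invasion_lt (p : unitInterval) (hp : (p : ℝ) ≤ 1 / 200000) :
    bernoulliProduct Vert p (invasionSet graph) < 1 := by
  classical
  set μ := bernoulliProduct Vert p with hμ
  set δ : ℝ≥0∞ := ENNReal.ofReal (1 / 12) with hδ
  have hδ1 : δ ≤ 1 := ENNReal.ofReal_le_one.2 (by norm_num)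
  have hδ4 : 6 * (ENNReal.ofReal (p : ℝ)) ≤ δ ^ 4 := by
    rw [hδ, ← ENNReal.ofReal_pow (by norm_num)]
    have : (6 : ℝ≥0∞) = ENNReal.ofReal 6 := by norm_num
    rw [this, ← ENNReal.ofReal_mul (by norm_num)]
    refine ENNReal.ofReal_le_ofReal ?_
    norm_num
    linarith
  have hF : ∀ F : Finset (ℤ × ℤ), μ {c | ∀ z ∈ F, z ∉ healthy c} ≤ (δ ^ 4) ^ F.card := fun F =>
    (measure_unhealthy_le p F).trans (pow_le_pow_left' hδ4 _)
  have hF' : ∀ F : Finset (ℤ × ℤ), μ {c | ∀ z ∈ F, z ∉ {z | -z ∈ healthy c}} ≤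
      (δ ^ 4) ^ F.card := fun F => by
    have h1 := hF (F.image fun z => -z)
    rw [Finset.card_image_of_injective _ neg_injective] at h1
    refine le_trans (measure_mono ?_) h1
    intro c hc z hz
    rw [Finset.mem_image] at hz
    obtain ⟨z', hz', rfl⟩ := hz
    exact hc z' hz'
  have h1 := measure_finite_le μ (fun c => healthy c) δ hδ1 hF
  have h2 := measure_finite_le μ (fun c => {z | -z ∈ healthy c}) δ hδ1 hF'
  have h0 := hF {(0, 0)}
  have hsub : invasionSet graph ⊆ ({c | ∀ z ∈ ({(0, 0)} : Finset (ℤ × ℤ)), z ∉ healthy c} ∪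
      {c | (clus (healthy c)).Finite}) ∪ {c | (clus {z | -z ∈ healthy c}).Finite} := by
    intro c hc
    by_contra hcon
    simp only [Set.mem_union, not_or] at hcon
    obtain ⟨⟨ha, hb⟩, hd⟩ := hcon
    have ha' : ((0, 0) : ℤ × ℤ) ∈ healthy c := by
      by_contra h
      exact ha fun z hz => by rw [Finset.mem_singleton.1 hz]; exact h
    refine not_invaded ha' hb ?_ hc
    intro hfin
    apply hd
    refine (hfin.preimage (neg_injective.injOn (s := _))).subset ?_
    intro w hw
    show Relation.ReflTransGen (R' (healthy c)) (0, 0) (-w)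
    have h3 : Relation.ReflTransGen (R' (healthy c)) (-(0, 0)) (-w) := by
      refine Relation.ReflTransGen.lift (fun z : ℤ × ℤ => -z) ?_ _ _ hw
      intro a b hab
      refine ⟨?_, hab.2⟩
      rcases hab.1 with h | h
      · left
        show -a = -b + v 0
        rw [h, neg_add, neg_add_cancel_right]
      · right
        show -a = -b + v 1
        rw [h, neg_add, neg_add_cancel_right]
    simpa using h3
  have hsum : ∑' n : ℕ, (3 * δ) ^ (n + 1) = ENNReal.ofReal (1 / 3) := by
    have e3 : 3 * δ = ENNReal.ofReal (1 / 4) := by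
      have : (3 : ℝ≥0∞) = ENNReal.ofReal 3 := by norm_num
      rw [this, hδ, ← ENNReal.ofReal_mul (by norm_num)]
      norm_num
    rw [e3, ENNReal.tsum_geometric_add_one]
    have e1 : (1 : ℝ≥0∞) = ENNReal.ofReal 1 := by norm_num
    rw [e1, ← ENNReal.ofReal_sub _ (by norm_num), ← ENNReal.ofReal_inv_of_pos (by norm_num),
      ← ENNReal.ofReal_mul (by norm_num)]
    norm_num
  calc μ (invasionSet graph) ≤ μ (({c | ∀ z ∈ ({(0, 0)} : Finset (ℤ × ℤ)), z ∉ healthy c} ∪
      {c | (clus (healthy c)).Finite}) ∪ {c | (clus {z | -z ∈ healthy c}).Finite}) :=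
        measure_mono hsub
    _ ≤ (μ {c | ∀ z ∈ ({(0, 0)} : Finset (ℤ × ℤ)), z ∉ healthy c} +
        μ {c | (clus (healthy c)).Finite}) + μ {c | (clus {z | -z ∈ healthy c}).Finite} :=
        (measure_union_le _ _).trans (add_le_add (measure_union_le _ _) le_rfl)
    _ ≤ ((δ ^ 4) ^ 1 + ENNReal.ofReal (1 / 3)) + ENNReal.ofReal (1 / 3) :=
        add_le_add (add_le_add h0 (h1.trans hsum.le)) (h2.trans hsum.le)
    _ = ENNReal.ofReal ((1 / 12) ^ 4 + 1 / 3 + 1 / 3) := by
        rw [pow_one, hδ, ← ENNReal.ofReal_pow (by norm_num), ← ENNReal.ofReal_add (by norm_num)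
          (by norm_num), ← ENNReal.ofReal_add (by norm_num) (by norm_num)]
    _ < 1 := by
        rw [ENNReal.ofReal_lt_one]
        norm_num

/-! ### Geometry of the graph -/

theorem adj_iff {x y : Vert} : graph.Adj x y ↔ y ∈ ups x ∪ downs x := by
  rw [Finset.mem_union, mem_ups, mem_downs]
  rfl

noncomputable instance : graph.LocallyFinite := fun x =>
  Fintype.ofFinset (ups x ∪ downs x) fun y => by
    rw [SimpleGraph.mem_neighborSet]
    exact adj_iff.symm

theorem regular : graph.IsRegularOfDegree 4 := by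
  intro x
  have h : graph.neighborFinset x = ups x ∪ downs x := by
    ext y
    rw [SimpleGraph.mem_neighborFinset]
    exact adj_iff
  unfold SimpleGraph.degree
  rw [h, Finset.card_union_of_disjoint, card_ups, card_downs]
  rw [Finset.disjoint_left]
  intro y hy hy'
  rw [mem_ups] at hy
  rw [mem_downs] at hy'
  have := hy.level
  have := hy'.level
  omega

theorem no_fortress (S : Set Vert) : ¬ IsFortress graph S := by
  rintro ⟨hfin, hne, hS⟩
  obtain ⟨x, hx, hmin⟩ := hfin.exists_minimalFor level S hne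
  obtain ⟨y, z, hyz, hyz'⟩ := Finset.card_eq_two.1 (card_downs x)
  have hy : Up y x := mem_downs.1 (by rw [hyz']; simp)
  have hz : Up z x := mem_downs.1 (by rw [hyz']; simp)
  refine hyz (hS x hx y z (Or.inr hy) (Or.inr hz) ?_ ?_)
  · intro h
    have h1 := hy.level
    have h2 := hmin h (by omega)
    omega
  · intro h
    have h1 := hz.level
    have h2 := hmin h (by omega)
    omega

/-- every vertex is at distance at most two from the vertex `(z, 1, true)` of its block -/
theorem walk_rep (x : Vert) : ∃ q : graph.Walk x (x.1, 1, true), q.length ≤ 2 := by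
  obtain ⟨z, t, b⟩ := x
  fin_cases t
  · have h : graph.Adj (z, 0, b) (z, 1, true) := Or.inl (Or.inl ⟨rfl, rfl, rfl⟩)
    exact ⟨h.toWalk, by simp⟩
  · cases b
    · have h : graph.Adj (z, 1, false) (z, 2, true) := Or.inl (Or.inr (Or.inl ⟨rfl, rfl, rfl⟩))
      have h' : graph.Adj (z, 2, true) (z, 1, true) := Or.inr (Or.inr (Or.inl ⟨rfl, rfl, rfl⟩))
      exact ⟨SimpleGraph.Walk.cons h h'.toWalk, by simp⟩
    · exact ⟨SimpleGraph.Walk.nil, by simp⟩
  · have h : graph.Adj (z, 2, b) (z, 1, true) := Or.inr (Or.inr (Or.inl ⟨rfl, rfl, rfl⟩))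
    exact ⟨h.toWalk, by simp⟩

theorem walk_up (z z' : ℤ × ℤ) (h : z' = z + (1, 0) ∨ z' = z + (0, 1)) :
    ∃ q : graph.Walk (z, 1, true) (z', 1, true), q.length = 3 := by
  have h1 : graph.Adj (z, 1, true) (z, 2, true) := Or.inl (Or.inr (Or.inl ⟨rfl, rfl, rfl⟩))
  have h2 : graph.Adj (z, 2, true) (z', 0, true) := Or.inl (Or.inr (Or.inr ⟨rfl, rfl, rfl, h⟩))
  have h3 : graph.Adj (z', 0, true) (z', 1, true) := Or.inl (Or.inl ⟨rfl, rfl, rfl⟩)
  exact ⟨SimpleGraph.Walk.cons h1 (SimpleGraph.Walk.cons h2 h3.toWalk), by simp⟩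

theorem walk_lift {z z' : ℤ × ℤ} (q : squareLattice.Walk z z') :
    ∃ q' : graph.Walk (z, 1, true) (z', 1, true), q'.length = 3 * q.length := by
  induction q with
  | nil => exact ⟨SimpleGraph.Walk.nil, rfl⟩
  | @cons a b c h q ih =>
    obtain ⟨q1, hq1⟩ := ih
    have h2 : ∃ q2 : graph.Walk (a, 1, true) (b, 1, true), q2.length = 3 := by
      rcases h with h | h | h | h
      · exact walk_up a b (Or.inl (by rw [← h]; abel))
      · obtain ⟨q2, hq2⟩ := walk_up b a (Or.inl (by
          have : a = b - (b - a) := by abel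
          rw [h] at this
          rw [this, sub_eq_add_neg]; rfl))
        exact ⟨q2.reverse, by rw [SimpleGraph.Walk.length_reverse, hq2]⟩
      · exact walk_up a b (Or.inr (by rw [← h]; abel))
      · obtain ⟨q2, hq2⟩ := walk_up b a (Or.inr (by
          have : a = b - (b - a) := by abel
          rw [h] at this
          rw [this, sub_eq_add_neg]; rfl))
        exact ⟨q2.reverse, by rw [SimpleGraph.Walk.length_reverse, hq2]⟩
    obtain ⟨q2, hq2⟩ := h2
    refine ⟨q2.append q1, ?_⟩
    rw [SimpleGraph.Walk.length_append, SimpleGraph.Walk.length_cons, hq1, hq2]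
    ring

theorem lattice_reachable (a : ℤ × ℤ) : squareLattice.Reachable (0, 0) a := by
  obtain ⟨x, y⟩ := a
  have h1 : ∀ x : ℤ, squareLattice.Reachable (0, 0) (x, 0) := by
    intro x
    induction x using Int.induction_on with
    | zero => exact SimpleGraph.Reachable.refl _
    | succ i ih => exact ih.trans (SimpleGraph.Adj.reachable (Or.inl (by simp)))
    | pred i ih => exact ih.trans (SimpleGraph.Adj.reachable (Or.inr (Or.inl (by simp; ring))))
  induction y using Int.induction_on with
  | zero => exact h1 x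
  | succ i ih => exact ih.trans (SimpleGraph.Adj.reachable (Or.inr (Or.inr (Or.inl (by simp)))))
  | pred i ih =>
    exact ih.trans (SimpleGraph.Adj.reachable (Or.inr (Or.inr (Or.inr (by simp; ring)))))

theorem lattice_connected : squareLattice.Connected where
  preconnected a b := (lattice_reachable a).symm.trans (lattice_reachable b)
  nonempty := ⟨(0, 0)⟩

theorem graph_connected : graph.Connected where
  preconnected x y := by
    obtain ⟨q1, -⟩ := walk_rep x
    obtain ⟨q2, -⟩ := walk_rep y
    obtain ⟨q⟩ := lattice_connected.preconnected x.1 y.1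
    obtain ⟨q3, -⟩ := walk_lift q
    exact ⟨(q1.append q3).append q2.reverse⟩
  nonempty := ⟨((0, 0), 0, true)⟩

theorem walk_proj {x y : Vert} (q : graph.Walk x y) :
    ∃ q' : squareLattice.Walk x.1 y.1, q'.length ≤ q.length := by
  induction q with
  | nil => exact ⟨SimpleGraph.Walk.nil, le_rfl⟩
  | @cons a b c h q ih =>
    obtain ⟨q1, hq1⟩ := ih
    have key : b.1 = a.1 ∨ squareLattice.Adj a.1 b.1 := by
      rcases h with h | h
      · rcases h with h | h | ⟨-, -, -, h | h⟩
        · exact Or.inl h.2.2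
        · exact Or.inl h.2.2
        · exact Or.inr (Or.inl (by rw [h]; abel))
        · exact Or.inr (Or.inr (Or.inr (Or.inl (by rw [h]; abel))))
      · rcases h with h | h | ⟨-, -, -, h | h⟩
        · exact Or.inl h.2.2.symm
        · exact Or.inl h.2.2.symm
        · refine Or.inr (SimpleGraph.Adj.symm (Or.inl ?_)); rw [h]; abel
        · refine Or.inr (SimpleGraph.Adj.symm (Or.inr (Or.inr (Or.inl ?_)))); rw [h]; abel
    rcases key with h | h
    · refine ⟨q1.copy h rfl, ?_⟩
      rw [SimpleGraph.Walk.length_copy, SimpleGraph.Walk.length_cons]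
      omega
    · refine ⟨SimpleGraph.Walk.cons h q1, ?_⟩
      rw [SimpleGraph.Walk.length_cons, SimpleGraph.Walk.length_cons]
      omega

theorem quasiIsometric : QuasiIsometric graph squareLattice := by
  refine ⟨Prod.fst, 3, 4, by norm_num, by norm_num, fun x y => ⟨?_, ?_⟩, fun w => ?_⟩
  · obtain ⟨q1, hq1⟩ := walk_rep x
    obtain ⟨q2, hq2⟩ := walk_rep y
    obtain ⟨q, hq⟩ := lattice_connected.exists_walk_length_eq_dist x.1 y.1
    obtain ⟨q3, hq3⟩ := walk_lift q
    have h1 : graph.dist x y ≤ 2 + 3 * squareLattice.dist x.1 y.1 + 2 := by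
      refine (SimpleGraph.dist_le ((q1.append q3).append q2.reverse)).trans ?_
      rw [SimpleGraph.Walk.length_append, SimpleGraph.Walk.length_append,
        SimpleGraph.Walk.length_reverse, hq3, hq]
      omega
    have h2 : (graph.dist x y : ℝ) ≤ 2 + 3 * (squareLattice.dist x.1 y.1 : ℝ) + 2 := by
      exact_mod_cast h1
    linarith
  · obtain ⟨q, hq⟩ := graph_connected.exists_walk_length_eq_dist x y
    obtain ⟨q', hq'⟩ := walk_proj q
    have h1 : squareLattice.dist x.1 y.1 ≤ graph.dist x y :=
      (SimpleGraph.dist_le q').trans (hq'.trans hq.le)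
    have h2 : (squareLattice.dist x.1 y.1 : ℝ) ≤ (graph.dist x y : ℝ) := by exact_mod_cast h1
    have h3 : (0 : ℝ) ≤ (graph.dist x y : ℝ) := Nat.cast_nonneg _
    linarith
  · refine ⟨(w, 0, true), ?_⟩
    simp

/-- **Disproof.** There is a connected 4-regular graph on a countably infinite vertex set,
quasi-isometric to the square lattice and without fortress, on which 2-neighbour invasion has
probability less than one for every Bernoulli parameter `0 < p ≤ 1/200000`. -/
theorem result : ∃ (V : Type) (_ : Countable V) (_ : Infinite V) (G : SimpleGraph V)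
    (_ : G.LocallyFinite), G.Connected ∧ G.IsRegularOfDegree 4 ∧
    QuasiIsometric G squareLattice ∧ (∀ S : Set V, ¬ IsFortress G S) ∧
    ∀ p : unitInterval, (p : ℝ) ≤ 1 / 200000 →
      bernoulliProduct V p (invasionSet G) < 1 :=
  ⟨Vert, inferInstance, inferInstance, graph, inferInstance, graph_connected, regular,
    quasiIsometric, no_fortress, fun p hp => measure_invasion_lt p hp⟩

end Pool.Agent.Results.MP_38c1f8_pr.NoInvasion
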